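import Pool.Agent.Helper91.IP.Defs

/-!
# Project IP, piece D1: an elementary bound on the Jucys–Murphy elements
-/

set_option autoImplicit false
set_option linter.unusedSectionVars false

namespace Pool.Agent.Helper61.IP

open Finset Matrix Pool.Agent.Helper91.IP
open Equiv (Perm)

variable {V : Type} [Fintype V] [DecidableEq V]

/-- translation by `g`: `(T g f) s = f (g * s)` -/
def T (g : Perm V) : (Perm V → ℝ) →ₗ[ℝ] (Perm V → ℝ) := LinearMap.funLeft ℝ ℝ (fun s => g * s)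

theorem T_apply (g : Perm V) (f : Perm V → ℝ) (s : Perm V) : T g f s = f (g * s) := rfl

theorem T_T (g h : Perm V) (f : Perm V → ℝ) : T g (T h f) = T (h * g) f := by
  funext s
  simp only [T_apply, mul_assoc]

theorem T_one (f : Perm V → ℝ) : T 1 f = f := by
  funext s
  simp only [T_apply, one_mul]

theorem T_invol (x y : V) (f : Perm V → ℝ) : T (Equiv.swap x y) (T (Equiv.swap x y) f) = f := by
  rw [T_T, Equiv.swap_mul_self, T_one]

theorem T_swap_T (g : Perm V) (x y : V) (f : Perm V → ℝ) :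
    T (Equiv.swap x y) (T g f) = T g (T (Equiv.swap (g x) (g y)) f) := by
  rw [T_T, T_T, Equiv.mul_swap_eq_swap_mul]

theorem dot_T (x y : V) (f g : Perm V → ℝ) :
    (T (Equiv.swap x y) f) ⬝ᵥ g = f ⬝ᵥ (T (Equiv.swap x y) g) := by
  simp only [dotProduct, T_apply]
  refine Fintype.sum_equiv (Equiv.mulLeft (Equiv.swap x y)) _ _ ?_
  intro s
  simp [← mul_assoc]

/-- fixed by all transpositions in `Y` -/
def Fx (Y : Finset V) (f : Perm V → ℝ) : Prop := ∀ x ∈ Y, ∀ y ∈ Y, T (Equiv.swap x y) f = f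

theorem Fx_mono {Y Z : Finset V} (h : Y ⊆ Z) {f : Perm V → ℝ} (hf : Fx Z f) : Fx Y f :=
  fun x hx y hy => hf x (h hx) y (h hy)

theorem Fx_of_star {Y : Finset V} {z : V} {f : Perm V → ℝ}
    (h : ∀ y ∈ Y, T (Equiv.swap z y) f = f) : Fx (insert z Y) f := by
  have key : ∀ x ∈ Y, ∀ y ∈ Y, T (Equiv.swap x y) f = f := by
    intro x hx y hy
    by_cases hxy : x = y
    · subst hxy
      rw [Equiv.swap_self]
      exact T_one f
    by_cases hzx : z = x
    · subst hzx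
      exact h y hy
    by_cases hzy : z = y
    · subst hzy
      rw [Equiv.swap_comm]
      exact h x hx
    have e := T_swap_T (Equiv.swap z x) x y f
    rw [h x hx, Equiv.swap_apply_right, Equiv.swap_apply_of_ne_of_ne (Ne.symm hzy) (Ne.symm hxy),
      h y hy, h x hx] at e
    exact e
  intro x hx y hy
  rcases mem_insert.1 hx with hx1 | hx1
  · rcases mem_insert.1 hy with hy1 | hy1
    · rw [hx1, hy1, Equiv.swap_self]; exact T_one f
    · rw [hx1]; exact h y hy1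
  · rcases mem_insert.1 hy with hy1 | hy1
    · rw [hy1, Equiv.swap_comm]; exact h x hx1
    · exact key x hx1 y hy1

/-- the sum over the coset representatives -/
theorem star_fix {Y : Finset V} {z : V} (hz : z ∉ Y) {h : Perm V → ℝ} (hh : Fx Y h) :
    ∀ y ∈ Y, T (Equiv.swap z y) (h + ∑ y ∈ Y, T (Equiv.swap z y) h) =
      h + ∑ y ∈ Y, T (Equiv.swap z y) h := by
  intro y₀ hy₀
  have h1 : ∀ y ∈ Y.erase y₀, T (Equiv.swap z y₀) (T (Equiv.swap z y) h) =
      T (Equiv.swap z y) h := by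
    intro y hy
    obtain ⟨hne, hyY⟩ := mem_erase.1 hy
    have hz0 : y₀ ≠ z := fun h => hz (h ▸ hy₀)
    rw [T_swap_T, Equiv.swap_apply_left, Equiv.swap_apply_of_ne_of_ne hz0 (Ne.symm hne),
      hh y hyY y₀ hy₀]
  rw [map_add, map_sum, ← add_sum_erase Y _ hy₀, ← add_sum_erase Y _ hy₀, T_invol,
    sum_congr rfl h1]
  abel

theorem star_Fx {Y : Finset V} {z : V} (hz : z ∉ Y) {h : Perm V → ℝ} (hh : Fx Y h) :
    Fx (insert z Y) (h + ∑ y ∈ Y, T (Equiv.swap z y) h) :=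
  Fx_of_star (star_fix hz hh)

theorem dot_star {Y : Finset V} {z : V} (hz : z ∉ Y) {h : Perm V → ℝ} (hh : Fx Y h)
    (u : Perm V → ℝ) :
    ∑ y ∈ Y, (h + ∑ y ∈ Y, T (Equiv.swap z y) h) ⬝ᵥ T (Equiv.swap z y) u =
      (Y.card : ℝ) * ((h + ∑ y ∈ Y, T (Equiv.swap z y) h) ⬝ᵥ u) := by
  rw [sum_congr rfl (g := fun _ => (h + ∑ y ∈ Y, T (Equiv.swap z y) h) ⬝ᵥ u), sum_const,
    nsmul_eq_mul]
  intro y hy
  rw [← dot_T, star_fix hz hh y hy]

theorem dot_self_nonneg' (f : Perm V → ℝ) : 0 ≤ f ⬝ᵥ f := by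
  simp only [dotProduct]
  exact sum_nonneg fun s _ => mul_self_nonneg _

theorem eq_zero_of_dot (f : Perm V → ℝ) (h : f ⬝ᵥ f = 0) : f = 0 := by
  simp only [dotProduct] at h
  funext s
  have := (sum_eq_zero_iff_of_nonneg (fun s _ => mul_self_nonneg (f s))).1 h s (mem_univ s)
  exact mul_self_eq_zero.1 this

theorem dot_star_self {Y : Finset V} {z : V} (hz : z ∉ Y) {h : Perm V → ℝ} (hh : Fx Y h) :
    (h + ∑ y ∈ Y, T (Equiv.swap z y) h) ⬝ᵥ (h + ∑ y ∈ Y, T (Equiv.swap z y) h) =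
      (1 + Y.card : ℝ) * ((h + ∑ y ∈ Y, T (Equiv.swap z y) h) ⬝ᵥ h) := by
  have e := dot_star hz hh h
  have : (h + ∑ y ∈ Y, T (Equiv.swap z y) h) ⬝ᵥ (h + ∑ y ∈ Y, T (Equiv.swap z y) h) =
      (h + ∑ y ∈ Y, T (Equiv.swap z y) h) ⬝ᵥ h +
      ∑ y ∈ Y, (h + ∑ y ∈ Y, T (Equiv.swap z y) h) ⬝ᵥ T (Equiv.swap z y) h := by
    conv_lhs => rw [dotProduct_add, dotProduct_sum]
  rw [this, e]
  ring

/-- for `h` fixed by `Y`: `∑_y ⟨h, τ_zy h⟩ ≥ -‖h‖²` -/
theorem star_lower {Y : Finset V} {z : V} (hz : z ∉ Y) {h : Perm V → ℝ} (hh : Fx Y h) :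
    -(h ⬝ᵥ h) ≤ ∑ y ∈ Y, h ⬝ᵥ T (Equiv.swap z y) h := by
  have e := dot_star_self hz hh
  have h0 := dot_self_nonneg' (h + ∑ y ∈ Y, T (Equiv.swap z y) h)
  rw [e] at h0
  have h1 : (h + ∑ y ∈ Y, T (Equiv.swap z y) h) ⬝ᵥ h =
      h ⬝ᵥ h + ∑ y ∈ Y, h ⬝ᵥ T (Equiv.swap z y) h := by
    rw [add_dotProduct, sum_dotProduct]
    congr 1
    exact sum_congr rfl fun y _ => dot_T _ _ _ _
  rw [h1] at h0
  have hc : (0 : ℝ) < 1 + Y.card := by positivity
  have := nonneg_of_mul_nonneg_right h0 hc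
  linarith

/-! ### the top eigenvalue -/

theorem exists_top (U : Submodule ℝ (Perm V → ℝ)) (A : (Perm V → ℝ) →ₗ[ℝ] (Perm V → ℝ))
    (hs : ∀ f g, (A f) ⬝ᵥ g = f ⬝ᵥ (A g)) (hA : ∀ f ∈ U, A f ∈ U) (hU : ∃ f ∈ U, f ≠ 0) :
    ∃ c : ℝ, ∃ f ∈ U, f ≠ 0 ∧ A f = c • f ∧ ∀ h ∈ U, h ⬝ᵥ A h ≤ c * (h ⬝ᵥ h) := by
  have hdot : Continuous fun f : Perm V → ℝ => f ⬝ᵥ f := by
    simp only [dotProduct]
    fun_prop
  have hAc : Continuous A := A.continuous_of_finiteDimensional
  have hq : Continuous fun f : Perm V → ℝ => f ⬝ᵥ A f := by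
    have h2 : ∀ s, Continuous fun f : Perm V → ℝ => A f s := fun s =>
      (continuous_apply s).comp hAc
    simp only [dotProduct]
    exact continuous_finsetSum _ fun s _ => (continuous_apply s).mul (h2 s)
  set K : Set (Perm V → ℝ) := {f | f ∈ U ∧ f ⬝ᵥ f = 1} with hK
  have hclosed : IsClosed K := by
    have h1 : IsClosed (U : Set (Perm V → ℝ)) := U.closed_of_finiteDimensional
    exact h1.inter (isClosed_eq hdot continuous_const)
  have hbdd : Bornology.IsBounded K := by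
    refine (Metric.isBounded_closedBall (x := (0 : Perm V → ℝ)) (r := 1)).subset ?_
    intro f hf
    rw [Metric.mem_closedBall, dist_zero_right, pi_norm_le_iff_of_nonneg zero_le_one]
    intro s
    have h1 : f s * f s ≤ 1 := by
      rw [← hf.2]
      simp only [dotProduct]
      exact single_le_sum (f := fun s => f s * f s) (fun s _ => mul_self_nonneg _) (mem_univ s)
    rw [Real.norm_eq_abs]
    exact abs_le_one_iff_mul_self_le_one.2 h1
  have hcomp : IsCompact K := Metric.isCompact_of_isClosed_isBounded hclosed hbdd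
  have hnorm : ∀ h ∈ U, h ≠ 0 → ∃ a : ℝ, 0 < a ∧ a ^ 2 * (h ⬝ᵥ h) = 1 ∧ a • h ∈ K := by
    intro h hh hne
    have hpos : 0 < h ⬝ᵥ h := lt_of_le_of_ne (dot_self_nonneg' h)
      (fun e => hne (eq_zero_of_dot h e.symm))
    refine ⟨(Real.sqrt (h ⬝ᵥ h))⁻¹, inv_pos.2 (Real.sqrt_pos.2 hpos), ?_, U.smul_mem _ hh, ?_⟩
    · rw [inv_pow, Real.sq_sqrt hpos.le]
      exact inv_mul_cancel₀ hpos.ne'
    · rw [smul_dotProduct, dotProduct_smul, smul_eq_mul, smul_eq_mul, ← mul_assoc, ← pow_two,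
        inv_pow, Real.sq_sqrt hpos.le]
      exact inv_mul_cancel₀ hpos.ne'
  have hne : K.Nonempty := by
    obtain ⟨f, hf, hf0⟩ := hU
    obtain ⟨a, _, _, ha⟩ := hnorm f hf hf0
    exact ⟨_, ha⟩
  obtain ⟨f0, hf0, hmax⟩ := hcomp.exists_isMaxOn hne hq.continuousOn
  have hmax' : ∀ h ∈ K, h ⬝ᵥ A h ≤ f0 ⬝ᵥ A f0 := fun h hh => hmax hh
  set c := f0 ⬝ᵥ A f0 with hc
  have hle : ∀ h ∈ U, h ⬝ᵥ A h ≤ c * (h ⬝ᵥ h) := by
    intro h hh
    by_cases h0 : h = 0
    · subst h0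
      simp
    obtain ⟨a, ha, ha1, haK⟩ := hnorm h hh h0
    have h1 := hmax' _ haK
    rw [map_smul, smul_dotProduct, dotProduct_smul, smul_eq_mul, smul_eq_mul, ← mul_assoc,
      ← pow_two] at h1
    have h2 : a ^ 2 * (h ⬝ᵥ A h) ≤ a ^ 2 * (c * (h ⬝ᵥ h)) := by
      calc a ^ 2 * (h ⬝ᵥ A h) ≤ c := h1
        _ = c * (a ^ 2 * (h ⬝ᵥ h)) := by rw [ha1, mul_one]
        _ = a ^ 2 * (c * (h ⬝ᵥ h)) := by ring
    exact le_of_mul_le_mul_left h2 (by positivity)
  refine ⟨c, f0, hf0.1, ?_, ?_, hle⟩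
  · intro h0
    have := hf0.2
    rw [h0] at this
    simp at this
  · set r := A f0 - c • f0 with hr
    have hrU : r ∈ U := U.sub_mem (hA _ hf0.1) (U.smul_mem _ hf0.1)
    have hrr : r ⬝ᵥ r = r ⬝ᵥ A f0 - c * (r ⬝ᵥ f0) := by
      conv_lhs => rw [hr]
      rw [← hr, dotProduct_sub, dotProduct_smul, smul_eq_mul]
    have hD : 0 ≤ c * (r ⬝ᵥ r) - r ⬝ᵥ A r := by linarith [hle r hrU]
    have hexp : ∀ t : ℝ, 0 ≤ -2 * t * (r ⬝ᵥ r) + t ^ 2 * (c * (r ⬝ᵥ r) - r ⬝ᵥ A r) := by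
      intro t
      have h1 := hle (f0 + t • r) (U.add_mem hf0.1 (U.smul_mem _ hrU))
      have e1 : (f0 + t • r) ⬝ᵥ A (f0 + t • r) =
          c + 2 * t * (r ⬝ᵥ A f0) + t ^ 2 * (r ⬝ᵥ A r) := by
        rw [map_add, map_smul, add_dotProduct, dotProduct_add, dotProduct_add, smul_dotProduct,
          smul_dotProduct, dotProduct_smul, dotProduct_smul, ← hs f0 r, dotProduct_comm (A f0) r]
        simp only [smul_eq_mul]
        rw [← hc]
        ring
      have e2 : (f0 + t • r) ⬝ᵥ (f0 + t • r) =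
          1 + 2 * t * (r ⬝ᵥ f0) + t ^ 2 * (r ⬝ᵥ r) := by
        rw [add_dotProduct, dotProduct_add, dotProduct_add, smul_dotProduct,
          smul_dotProduct, dotProduct_smul, dotProduct_smul, dotProduct_comm f0 r, hf0.2]
        simp only [smul_eq_mul]
        ring
      rw [e1, e2] at h1
      rw [hrr] at h1 ⊢
      linarith
    have hrr0 : r ⬝ᵥ r = 0 := by
      by_contra hne0
      have hpos : 0 < r ⬝ᵥ r := lt_of_le_of_ne (dot_self_nonneg' r) (Ne.symm hne0)
      set D := c * (r ⬝ᵥ r) - r ⬝ᵥ A r with hDdef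
      have hD1 : 0 < D + 1 := by linarith
      have h1 := hexp ((r ⬝ᵥ r) / (D + 1))
      have hq : 0 < (r ⬝ᵥ r) / (D + 1) := div_pos hpos hD1
      have h2 : (r ⬝ᵥ r) / (D + 1) * D ≤ r ⬝ᵥ r := by
        rw [div_mul_eq_mul_div, div_le_iff₀ hD1]
        nlinarith
      nlinarith
    have := eq_zero_of_dot r hrr0
    rw [hr] at this
    exact sub_eq_zero.1 this

/-! ### the operator `J` -/

/-- the sum of the transpositions `(x y)`, `y ∈ B`, `y ≠ x` -/
def J (B : Finset V) (x : V) : (Perm V → ℝ) →ₗ[ℝ] (Perm V → ℝ) :=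
  ∑ y ∈ B.erase x, T (Equiv.swap x y)

theorem J_apply (B : Finset V) (x : V) (f : Perm V → ℝ) :
    J B x f = ∑ y ∈ B.erase x, T (Equiv.swap x y) f := by
  rw [J, LinearMap.sum_apply]

theorem J_symm (B : Finset V) (x : V) (f g : Perm V → ℝ) : (J B x f) ⬝ᵥ g = f ⬝ᵥ (J B x g) := by
  rw [J_apply, J_apply, sum_dotProduct, dotProduct_sum]
  exact sum_congr rfl fun y _ => dot_T _ _ _ _

theorem J_comm (B : Finset V) (x : V) {a b : V} (ha : a ∈ B.erase x) (hb : b ∈ B.erase x)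
    (f : Perm V → ℝ) : J B x (T (Equiv.swap a b) f) = T (Equiv.swap a b) (J B x f) := by
  obtain ⟨ha1, ha2⟩ := mem_erase.1 ha
  obtain ⟨hb1, hb2⟩ := mem_erase.1 hb
  rw [J_apply, J_apply, map_sum]
  refine sum_equiv (Equiv.swap a b) ?_ ?_
  · intro i
    by_cases hia : i = a
    · subst hia
      rw [Equiv.swap_apply_left]
      exact ⟨fun _ => hb, fun _ => ha⟩
    by_cases hib : i = b
    · subst hib
      rw [Equiv.swap_apply_right]
      exact ⟨fun _ => ha, fun _ => hb⟩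
    rw [Equiv.swap_apply_of_ne_of_ne hia hib]
  · intro i _
    rw [T_swap_T, Equiv.swap_apply_of_ne_of_ne (Ne.symm ha1) (Ne.symm hb1)]

theorem main_aux (n : ℕ) : ∀ (B : Finset V), B.card = n → ∀ (U : Submodule ℝ (Perm V → ℝ))
    (_ : ∀ x ∈ B, ∀ y ∈ B, ∀ f ∈ U, T (Equiv.swap x y) f ∈ U) (m : ℕ)
    (_ : ∀ Y ⊆ B, Y.card = m → ∀ f ∈ U, Fx Y f → f = 0)
    (x : V) (_ : x ∈ B) (f : Perm V → ℝ) (_ : f ∈ U),
    f ⬝ᵥ J B x f ≤ ((m : ℝ) - 2) * (f ⬝ᵥ f) := by
  induction n using Nat.strong_induction_on with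
  | _ n ih =>
  intro B hB U hU m hm x hx f0 hf0
  by_cases hUne : ∃ f ∈ U, f ≠ 0
  swap
  · push Not at hUne
    rw [hUne f0 hf0]
    simp
  -- larger sets
  have hm' : ∀ Y ⊆ B, m ≤ Y.card → ∀ f ∈ U, Fx Y f → f = 0 := by
    intro Y hY hc f hf hfx
    obtain ⟨Z, hZY, hZc⟩ := exists_subset_card_eq hc
    exact hm Z (hZY.trans hY) hZc f hf (Fx_mono hZY hfx)
  have hJU : ∀ f ∈ U, J B x f ∈ U := by
    intro f hf
    rw [J_apply]
    exact U.sum_mem fun y hy => hU x hx y (mem_of_mem_erase hy) f hf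
  obtain ⟨c, f1, hf1U, hf1ne, hf1J, hc⟩ := exists_top U (J B x) (J_symm B x) hJU hUne
  refine (hc f0 hf0).trans (mul_le_mul_of_nonneg_right ?_ (dot_self_nonneg' f0))
  -- the maximal set
  classical
  set P : Finset V → Prop := fun Y => ∃ f ∈ U, f ≠ 0 ∧ J B x f = c • f ∧ Fx Y f with hP
  obtain ⟨Y, hYmem, hYmax⟩ := exists_max_image ((B.erase x).powerset.filter P) Finset.card
    ⟨∅, mem_filter.2 ⟨mem_powerset.2 (empty_subset _), f1, hf1U, hf1ne, hf1J, by
      intro a ha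
      exact absurd ha (notMem_empty a)⟩⟩
  obtain ⟨hYsub, f, hfU, hfne, hfJ, hfY⟩ := mem_filter.1 hYmem
  rw [mem_powerset] at hYsub
  have hxY : x ∉ Y := fun h => (mem_erase.1 (hYsub h)).1 rfl
  have hYB : Y ⊆ B := fun y hy => mem_of_mem_erase (hYsub hy)
  have hff : 0 < f ⬝ᵥ f := lt_of_le_of_ne (dot_self_nonneg' f)
    (fun e => hfne (eq_zero_of_dot f e.symm))
  -- maximality
  have hmaxY : ∀ y ∈ B, y ≠ x → y ∉ Y → f + ∑ y' ∈ Y, T (Equiv.swap y y') f = 0 := by
    intro y hy hyx hyY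
    by_contra hne
    have h1 : insert y Y ∈ (B.erase x).powerset.filter P := by
      refine mem_filter.2 ⟨mem_powerset.2 (insert_subset (mem_erase.2 ⟨hyx, hy⟩) hYsub),
        _, ?_, hne, ?_, star_Fx hyY hfY⟩
      · exact U.add_mem hfU (U.sum_mem fun y' hy' => hU y hy y' (hYB hy') f hfU)
      · rw [map_add, map_sum, smul_add, smul_sum, hfJ]
        congr 1
        refine sum_congr rfl fun y' hy' => ?_
        rw [J_comm B x (mem_erase.2 ⟨hyx, hy⟩) (hYsub hy'), hfJ, map_smul]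
    have h2 := hYmax _ h1
    rw [card_insert_of_notMem hyY] at h2
    omega
  set g := f + ∑ y' ∈ Y, T (Equiv.swap x y') f with hg
  have hgfix := star_fix hxY hfY
  rw [← hg] at hgfix
  have hgFx : Fx (insert x Y) g := star_Fx hxY hfY
  have hgU : g ∈ U := U.add_mem hfU (U.sum_mem fun y' hy' => hU x hx y' (hYB hy') f hfU)
  have hortho : ∀ y ∈ B, y ≠ x → y ∉ Y → g ⬝ᵥ T (Equiv.swap x y) f = 0 := by
    intro y hy hyx hyY
    have h0 := hmaxY y hy hyx hyY
    have h1 : g ⬝ᵥ T (Equiv.swap x y) (f + ∑ y' ∈ Y, T (Equiv.swap y y') f) = 0 := by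
      rw [h0, map_zero, dotProduct_zero]
    rw [map_add, map_sum, dotProduct_add, dotProduct_sum] at h1
    have h2 : ∀ y' ∈ Y, g ⬝ᵥ T (Equiv.swap x y) (T (Equiv.swap y y') f) =
        g ⬝ᵥ T (Equiv.swap x y) f := by
      intro y' hy'
      have hy'x : y' ≠ x := fun h => hxY (h ▸ hy')
      have hy'y : y' ≠ y := fun h => hyY (h ▸ hy')
      have e := T_swap_T (Equiv.swap x y) x y' f
      rw [Equiv.swap_apply_left, Equiv.swap_apply_of_ne_of_ne hy'x hy'y] at e
      rw [← e, ← dot_T, hgfix y' hy']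
    rw [sum_congr rfl h2, sum_const, nsmul_eq_mul] at h1
    have h3 : (1 + (Y.card : ℝ)) * (g ⬝ᵥ T (Equiv.swap x y) f) = 0 := by linarith
    rcases mul_eq_zero.1 h3 with h4 | h4
    · have : (0 : ℝ) < 1 + Y.card := by positivity
      linarith
    · exact h4
  have hsplit : ∀ u : Perm V → ℝ, J B x u =
      ∑ y ∈ Y, T (Equiv.swap x y) u + ∑ y ∈ (B.erase x) \ Y, T (Equiv.swap x y) u := by
    intro u
    rw [J_apply, add_comm, sum_sdiff hYsub]
  have hstar := dot_star hxY hfY f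
  rw [← hg] at hstar
  have hcg : c * (g ⬝ᵥ f) = (Y.card : ℝ) * (g ⬝ᵥ f) := by
    have h1 : g ⬝ᵥ J B x f = c * (g ⬝ᵥ f) := by
      rw [hfJ, dotProduct_smul, smul_eq_mul]
    rw [← h1, hsplit, dotProduct_add, dotProduct_sum, dotProduct_sum, hstar]
    have h2 : ∑ y ∈ (B.erase x) \ Y, g ⬝ᵥ T (Equiv.swap x y) f = 0 := by
      refine sum_eq_zero fun y hy => ?_
      obtain ⟨hy1, hy2⟩ := mem_sdiff.1 hy
      obtain ⟨hy3, hy4⟩ := mem_erase.1 hy1
      exact hortho y hy4 hy3 hy2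
    rw [h2, add_zero]
  by_cases hgf : g ⬝ᵥ f = 0
  swap
  · -- first case
    have hcμ : c = Y.card := mul_right_cancel₀ hgf hcg
    have hgne : g ≠ 0 := by
      intro h
      rw [h, zero_dotProduct] at hgf
      exact hgf rfl
    have hlt : Y.card + 1 < m := by
      by_contra hge
      push Not at hge
      refine hgne (hm' (insert x Y) (insert_subset hx hYB) ?_ g hgU hgFx)
      rw [card_insert_of_notMem hxY]
      exact hge
    rw [hcμ]
    have : (Y.card : ℝ) + 2 ≤ m := by exact_mod_cast hlt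
    linarith
  · -- second case
    have hg0 : g = 0 := by
      refine eq_zero_of_dot g ?_
      have := dot_star_self hxY hfY
      rw [← hg] at this
      rw [this, hgf, mul_zero]
    have hYne : Y.Nonempty := by
      rw [nonempty_iff_ne_empty]
      intro h
      rw [h, sum_empty, add_zero] at hg
      exact hfne (hg ▸ hg0)
    -- the new data
    have hYcardpos : 0 < Y.card := card_pos.2 hYne
    have hB'card : (B \ Y).card < n := by
      rw [card_sdiff_of_subset hYB, hB]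
      have : Y.card ≤ n := hB ▸ card_le_card hYB
      omega
    let U' : Submodule ℝ (Perm V → ℝ) :=
      { carrier := {h | Fx Y h ∧ ∀ y ∈ B \ Y, h + ∑ y' ∈ Y, T (Equiv.swap y y') h = 0}
        add_mem' := by
          rintro a b ⟨ha1, ha2⟩ ⟨hb1, hb2⟩
          refine ⟨fun p hp q hq => by rw [map_add, ha1 p hp q hq, hb1 p hp q hq], ?_⟩
          intro y hy
          have h1 := ha2 y hy
          have h2 := hb2 y hy
          simp only [map_add, sum_add_distrib]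
          calc a + b + (∑ y' ∈ Y, T (Equiv.swap y y') a + ∑ y' ∈ Y, T (Equiv.swap y y') b)
              = (a + ∑ y' ∈ Y, T (Equiv.swap y y') a) + (b + ∑ y' ∈ Y, T (Equiv.swap y y') b) := by
                abel
            _ = 0 := by rw [h1, h2, add_zero]
        zero_mem' := by
          refine ⟨fun p hp q hq => map_zero _, fun y _ => by simp⟩
        smul_mem' := by
          rintro r a ⟨ha1, ha2⟩
          refine ⟨fun p hp q hq => by rw [map_smul, ha1 p hp q hq], ?_⟩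
          intro y hy
          have h1 := ha2 y hy
          simp only [map_smul]
          rw [← smul_sum, ← smul_add, h1, smul_zero] }
    have hU'mem : ∀ h, h ∈ U' ↔
        (Fx Y h ∧ ∀ y ∈ B \ Y, h + ∑ y' ∈ Y, T (Equiv.swap y y') h = 0) := fun h => Iff.rfl
    have hfU' : f ∈ U' := by
      rw [hU'mem]
      refine ⟨hfY, fun y hy => ?_⟩
      obtain ⟨hy1, hy2⟩ := mem_sdiff.1 hy
      by_cases hyx : y = x
      · rw [hyx]
        exact hg0
      · exact hmaxY y hy1 hyx hy2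
    have hinv : ∀ a ∈ B \ Y, ∀ b ∈ B \ Y, ∀ h ∈ U', T (Equiv.swap a b) h ∈ U' := by
      intro a ha b hb h hh
      rw [hU'mem] at hh ⊢
      obtain ⟨hh1, hh2⟩ := hh
      have ha' := (mem_sdiff.1 ha).2
      have hb' := (mem_sdiff.1 hb).2
      have hfixY : ∀ y ∈ Y, Equiv.swap a b y = y := by
        intro y hy
        exact Equiv.swap_apply_of_ne_of_ne (fun e => ha' (e ▸ hy)) (fun e => hb' (e ▸ hy))
      refine ⟨?_, ?_⟩
      · intro p hp q hq
        rw [T_swap_T, hfixY p hp, hfixY q hq, hh1 p hp q hq]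
      · intro y hy
        have hy' : Equiv.swap a b y ∈ B \ Y := by
          by_cases hya : y = a
          · rw [hya, Equiv.swap_apply_left]; exact hb
          by_cases hyb : y = b
          · rw [hyb, Equiv.swap_apply_right]; exact ha
          rw [Equiv.swap_apply_of_ne_of_ne hya hyb]; exact hy
        have h1 := hh2 _ hy'
        have h2 : ∑ y' ∈ Y, T (Equiv.swap y y') (T (Equiv.swap a b) h) =
            T (Equiv.swap a b) (∑ y' ∈ Y, T (Equiv.swap (Equiv.swap a b y) y') h) := by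
          rw [map_sum]
          refine sum_congr rfl fun y' hy' => ?_
          rw [T_swap_T, hfixY y' hy']
        rw [h2, ← map_add, h1, map_zero]
    have hnofix : ∀ Z ⊆ B \ Y, Z.card = Y.card + 1 → ∀ h ∈ U', Fx Z h → h = 0 := by
      intro Z hZ hZc h hh hhZ
      obtain ⟨hh1, hh2⟩ := (hU'mem h).1 hh
      -- total sum
      have h1 : ∑ z ∈ Z, ∑ y ∈ Y, h ⬝ᵥ T (Equiv.swap z y) h =
          -((Y.card : ℝ) + 1) * (h ⬝ᵥ h) := by
        have h2 : ∀ z ∈ Z, ∑ y ∈ Y, h ⬝ᵥ T (Equiv.swap z y) h = -(h ⬝ᵥ h) := by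
          intro z hz
          have h3 := hh2 z (hZ hz)
          have h4 : h ⬝ᵥ (h + ∑ y' ∈ Y, T (Equiv.swap z y') h) = 0 := by
            rw [h3, dotProduct_zero]
          rw [dotProduct_add, dotProduct_sum] at h4
          linarith
        rw [sum_congr rfl h2, sum_const, nsmul_eq_mul, hZc]
        push_cast
        ring
      have h5 : ∑ z ∈ Z, ∑ y ∈ Y, h ⬝ᵥ T (Equiv.swap z y) h ≥ -(Y.card : ℝ) * (h ⬝ᵥ h) := by
        rw [sum_comm]
        have h6 : ∀ y ∈ Y, -(h ⬝ᵥ h) ≤ ∑ z ∈ Z, h ⬝ᵥ T (Equiv.swap z y) h := by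
          intro y hy
          have hyZ : y ∉ Z := fun e => (mem_sdiff.1 (hZ e)).2 hy
          have := star_lower hyZ hhZ
          simpa only [Equiv.swap_comm y] using this
        have h7 := sum_le_sum h6
        rw [sum_const, nsmul_eq_mul] at h7
        linarith
      have h8 : h ⬝ᵥ h ≤ 0 := by
        rw [h1] at h5
        linarith
      exact eq_zero_of_dot h (le_antisymm h8 (dot_self_nonneg' h))
    have hxB' : x ∈ B \ Y := mem_sdiff.2 ⟨hx, hxY⟩
    have hind := ih _ hB'card (B \ Y) rfl U' hinv (Y.card + 1) hnofix x hxB' f hfU'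
    have hJ' : J (B \ Y) x f = (c + 1) • f := by
      have h1 := hsplit f
      have h2 : (B.erase x) \ Y = (B \ Y).erase x := by
        ext a
        simp only [mem_sdiff, mem_erase]
        tauto
      have h3 : ∑ y ∈ Y, T (Equiv.swap x y) f = -f := by
        rw [eq_neg_iff_add_eq_zero, add_comm]
        exact hg0
      rw [h3, h2, ← J_apply, hfJ] at h1
      rw [add_smul, one_smul, h1]
      abel
    rw [hJ', dotProduct_smul, smul_eq_mul] at hind
    have h9 := le_of_mul_le_mul_right hind hff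
    push_cast at h9
    have hlt : Y.card < m := by
      by_contra hge
      push Not at hge
      exact hfne (hm' Y hYB hge f hfU hfY)
    have : (Y.card : ℝ) < m := by exact_mod_cast hlt
    linarith

/-- IP-D1: an elementary bound on the Jucys–Murphy elements -/
theorem jucys (B : Finset V) (U : Submodule ℝ (Perm V → ℝ))
    (hU : ∀ x ∈ B, ∀ y ∈ B, ∀ f ∈ U, (fun s => f (Equiv.swap x y * s)) ∈ U) (m : ℕ)
    (hm : ∀ Y ⊆ B, Y.card = m → ∀ f ∈ U,
      (∀ x ∈ Y, ∀ y ∈ Y, (fun s => f (Equiv.swap x y * s)) = f) → f = 0)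
    (x : V) (hx : x ∈ B) (f : Perm V → ℝ) (hf : f ∈ U) :
    ∑ y ∈ B.erase x, cor f (Equiv.swap x y) ≤ ((m : ℝ) - 2) * nsq f := by
  have h1 := main_aux B.card B rfl U hU m hm x hx f hf
  rw [J_apply, dotProduct_sum] at h1
  have h2 : f ⬝ᵥ f = nsq f := by
    simp only [dotProduct, nsq, pow_two]
  rw [h2] at h1
  exact h1

end Pool.Agent.Helper61.IP
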